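import Pool.Agent.Helper236.Count

set_option autoImplicit false

/-!
# Tangency sets in planes of square order (the bound of Bruen and Thas)

In a projective plane over a field with `s ^ 2` elements there are no `s ^ 3 + 1` points such that
each of them lies on a tangent and some line misses all of them.
-/

namespace Pool.Agent.Y870.UN

open Set Module Submodule Pool.Agent.Helper236

theorem no_many {F V : Type*} [Field F] [AddCommGroup V] [Module F V] [Finite F] {s : ℕ}
    (hs : 2 ≤ s)
    (hF : Nat.card F = s ^ 2) [FiniteDimensional F V] (hV : finrank F V = 3)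
    (w : Fin (s ^ 3 + 1) → V)
    (f : Fin (s ^ 3 + 1) → (V →ₗ[F] F)) (g : V →ₗ[F] F)
    (hf0 : ∀ i, f i (w i) = 0) (hf : ∀ i j, i ≠ j → f i (w j) ≠ 0) (hg : ∀ j, g (w j) ≠ 0) :
    False := by
  classical
  have hfin : Finite (V →ₗ[F] F) := Module.finite_of_finite F
  have hft : Fintype (V →ₗ[F] F) := Fintype.ofFinite _
  have hFt : Fintype F := Fintype.ofFinite _
  have hw : ∀ i, w i ≠ 0 := by
    intro i h0
    apply hg i
    rw [h0, map_zero]
  have hind : ∀ i j, i ≠ j → LinearIndependent F ![w i, w j] := by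
    intro i j hij
    rw [LinearIndependent.pair_iff' (hw i)]
    intro c hc
    apply hf i j hij
    rw [← hc, map_smul, hf0, smul_zero]
  have hcard1 : ∀ i, (Finset.univ.filter (fun φ : V →ₗ[F] F => φ (w i) = 0)).card = s ^ 4 := by
    intro i
    have h1 := card_dual_killing (F := F) (span F {w i})
    rw [hF, hV, finrank_span_singleton (hw i)] at h1
    rw [← Fintype.card_subtype, ← Nat.card_eq_fintype_card]
    have h2 : Nat.card {φ : V →ₗ[F] F // φ (w i) = 0} =
        Nat.card {f : V →ₗ[F] F // ∀ x ∈ span F {w i}, f x = 0} := by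
      apply Nat.card_congr
      apply Equiv.subtypeEquivRight
      intro φ
      constructor
      · intro h x hx
        obtain ⟨c, rfl⟩ := mem_span_singleton.1 hx
        rw [map_smul, h, smul_zero]
      · intro h
        exact h _ (mem_span_singleton_self _)
    rw [h2, h1, ← pow_mul]
  have hcard2 : ∀ i j, i ≠ j →
      (Finset.univ.filter (fun φ : V →ₗ[F] F => φ (w i) = 0 ∧ φ (w j) = 0)).card = s ^ 2 := by
    intro i j hij
    have h1 := card_dual_killing (F := F) (span F (Set.range ![w i, w j]))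
    have h3 : finrank F (span F (Set.range ![w i, w j])) = 2 := by
      rw [finrank_span_eq_card (hind i j hij)]
      simp
    rw [hF, hV, h3] at h1
    rw [← Fintype.card_subtype, ← Nat.card_eq_fintype_card]
    have h2 : Nat.card {φ : V →ₗ[F] F // φ (w i) = 0 ∧ φ (w j) = 0} =
        Nat.card {f : V →ₗ[F] F // ∀ x ∈ span F (Set.range ![w i, w j]), f x = 0} := by
      apply Nat.card_congr
      apply Equiv.subtypeEquivRight
      intro φ
      constructor
      · intro h x hx
        have : span F (Set.range ![w i, w j]) ≤ LinearMap.ker φ := by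
          rw [span_le]
          rintro _ ⟨t, rfl⟩
          fin_cases t
          · exact h.1
          · exact h.2
        exact this hx
      · intro h
        exact ⟨h _ (subset_span ⟨0, rfl⟩), h _ (subset_span ⟨1, rfl⟩)⟩
    rw [h2, h1, ← pow_mul]
  have hcard0 : Fintype.card (V →ₗ[F] F) = s ^ 6 := by
    rw [← Nat.card_eq_fintype_card, Module.natCard_eq_pow_finrank (K := F),
      Module.finrank_linearMap, Module.finrank_self, hV, hF, ← pow_mul]
  -- the number of zeros
  set S : ℤ := (s : ℤ) with hS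
  set n : (V →ₗ[F] F) → ℤ := fun φ => ∑ i : Fin (s ^ 3 + 1), if φ (w i) = 0 then 1 else 0 with hn
  have hsum1 : ∑ φ : V →ₗ[F] F, n φ = (S ^ 3 + 1) * S ^ 4 := by
    rw [hn, Finset.sum_comm]
    have : ∀ i : Fin (s ^ 3 + 1), (∑ φ : V →ₗ[F] F, if φ (w i) = 0 then (1 : ℤ) else 0) = S ^ 4 := by
      intro i
      rw [Finset.sum_boole, hcard1 i]
      push_cast
      rfl
    rw [Finset.sum_congr rfl (fun i _ => this i), Finset.sum_const, Finset.card_univ,
      Fintype.card_fin, nsmul_eq_mul]
    push_cast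
    rfl
  have hsum2 : ∑ φ : V →ₗ[F] F, n φ * n φ = (S ^ 3 + 1) * (S ^ 4 + S ^ 3 * S ^ 2) := by
    have h1 : ∀ φ : V →ₗ[F] F, n φ * n φ = ∑ i : Fin (s ^ 3 + 1), ∑ j : Fin (s ^ 3 + 1),
        if φ (w i) = 0 ∧ φ (w j) = 0 then (1 : ℤ) else 0 := by
      intro φ
      rw [hn, Finset.sum_mul_sum]
      refine Finset.sum_congr rfl fun i _ => Finset.sum_congr rfl fun j _ => ?_
      by_cases h1 : φ (w i) = 0 <;> by_cases h2 : φ (w j) = 0 <;> simp [h1, h2]
    rw [Finset.sum_congr rfl (fun φ _ => h1 φ), Finset.sum_comm]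
    have h2 : ∀ i : Fin (s ^ 3 + 1), (∑ φ : V →ₗ[F] F, ∑ j : Fin (s ^ 3 + 1),
        if φ (w i) = 0 ∧ φ (w j) = 0 then (1 : ℤ) else 0) = S ^ 4 + S ^ 3 * S ^ 2 := by
      intro i
      rw [Finset.sum_comm]
      have h3 : ∀ j : Fin (s ^ 3 + 1), (∑ φ : V →ₗ[F] F,
          if φ (w i) = 0 ∧ φ (w j) = 0 then (1 : ℤ) else 0) = if i = j then S ^ 4 else S ^ 2 := by
        intro j
        rw [Finset.sum_boole]
        by_cases hij : i = j
        · subst hij
          simp only [and_self, if_true]
          rw [hcard1 i]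
          push_cast
          rfl
        · rw [hcard2 i j hij, if_neg hij]
          push_cast
          rfl
      rw [Finset.sum_congr rfl (fun j _ => h3 j), Finset.sum_ite, Finset.sum_const,
        Finset.sum_const, Finset.filter_eq, if_pos (Finset.mem_univ _), Finset.card_singleton,
        Finset.filter_ne, Finset.card_erase_of_mem (Finset.mem_univ _), Finset.card_univ,
        Fintype.card_fin, Nat.add_sub_cancel, one_nsmul, nsmul_eq_mul]
      push_cast
      rfl
    rw [Finset.sum_congr rfl (fun i _ => h2 i), Finset.sum_const, Finset.card_univ,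
      Fintype.card_fin, nsmul_eq_mul]
    push_cast
    rfl
  have hsum3 : ∑ φ : V →ₗ[F] F, (n φ - (S + 1)) ^ 2 = (S + 1) ^ 2 * (S - 1) * S ^ 4 := by
    have h1 : ∀ φ : V →ₗ[F] F, (n φ - (S + 1)) ^ 2 =
        n φ * n φ - (2 * (S + 1)) * n φ + (S + 1) ^ 2 := by
      intro φ
      ring
    rw [Finset.sum_congr rfl (fun φ _ => h1 φ), Finset.sum_add_distrib, Finset.sum_sub_distrib,
      hsum2, ← Finset.mul_sum, hsum1, Finset.sum_const, Finset.card_univ, hcard0, nsmul_eq_mul]
    push_cast
    ring
  -- the lower bound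
  let G : Option (Fin (s ^ 3 + 1)) → (V →ₗ[F] F) := fun o => o.elim g f
  have hG : ∀ (o : Option (Fin (s ^ 3 + 1))) (j : Fin (s ^ 3 + 1)), G o (w j) = 0 ↔ o = some j := by
    intro o j
    cases o with
    | none => simpa [G] using hg j
    | some i =>
      by_cases hij : i = j
      · subst hij
        simpa [G] using hf0 i
      · simpa [G, hij] using hf i j hij
  let ι : Option (Fin (s ^ 3 + 1)) × Fˣ → (V →ₗ[F] F) := fun p => (p.2 : F) • G p.1
  have hι : ∀ p j, ι p (w j) = 0 ↔ p.1 = some j := by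
    intro p j
    rw [← hG p.1 j]
    simp [ι]
  have hs3 : 1 < s ^ 3 + 1 := by
    have : 0 < s ^ 3 := by positivity
    omega
  have hother : ∀ o : Option (Fin (s ^ 3 + 1)), ∃ j, o ≠ some j := by
    intro o
    by_cases h0 : o = some ⟨0, by omega⟩
    · exact ⟨⟨1, hs3⟩, by rw [h0]; simp⟩
    · exact ⟨⟨0, by omega⟩, h0⟩
  have hinj : Function.Injective ι := by
    rintro ⟨o, c⟩ ⟨o', c'⟩ h
    have ho : o = o' := by
      cases o with
      | none =>
        cases o' with
        | none => rfl
        | some j =>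
          exfalso
          have h1 := (hι (some j, c') j).2 rfl
          rw [← h] at h1
          have := (hι (none, c) j).1 h1
          simp at this
      | some i =>
        have h1 := (hι (some i, c) i).2 rfl
        rw [h] at h1
        exact ((hι (o', c') i).1 h1).symm
    subst ho
    obtain ⟨j, hj⟩ := hother o
    have h2 : (c : F) * G o (w j) = (c' : F) * G o (w j) := by
      have := LinearMap.congr_fun h (w j)
      simpa [ι] using this
    have h3 : G o (w j) ≠ 0 := fun h => hj ((hG o j).1 h)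
    have h4 := mul_right_cancel₀ h3 h2
    rw [Units.ext h4]
  have hnz : (0 : V →ₗ[F] F) ∉ Finset.univ.image ι := by
    intro h
    obtain ⟨p, -, hp⟩ := Finset.mem_image.1 h
    obtain ⟨j, hj⟩ := hother p.1
    apply hj
    rw [← hι p j, hp]
    simp
  have hcu : (Fintype.card Fˣ : ℤ) = S ^ 2 - 1 := by
    rw [Fintype.card_units, ← Nat.card_eq_fintype_card, hF,
      Nat.cast_sub (Nat.one_le_pow _ _ (by omega))]
    push_cast
    rfl
  have hval : ∀ p : Option (Fin (s ^ 3 + 1)) × Fˣ, (n (ι p) - (S + 1)) ^ 2 =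
      if p.1 = none then (S + 1) ^ 2 else S ^ 2 := by
    intro p
    have h1 : n (ι p) = if p.1 = none then 0 else 1 := by
      rw [hn]
      simp only [hι]
      rcases p with ⟨o, c⟩
      cases o with
      | none => simp
      | some i => simp
    rw [h1]
    split_ifs <;> ring
  have hlow : (S ^ 3 - S) ^ 2 + ((S ^ 2 - 1) * (S + 1) ^ 2 + (S ^ 3 + 1) * ((S ^ 2 - 1) * S ^ 2)) ≤
      ∑ φ : V →ₗ[F] F, (n φ - (S + 1)) ^ 2 := by
    have h1 : ∑ φ ∈ insert 0 (Finset.univ.image ι), (n φ - (S + 1)) ^ 2 ≤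
        ∑ φ : V →ₗ[F] F, (n φ - (S + 1)) ^ 2 := by
      apply Finset.sum_le_sum_of_subset_of_nonneg (Finset.subset_univ _)
      intro φ _ _
      positivity
    refine le_trans (le_of_eq ?_) h1
    rw [Finset.sum_insert hnz, Finset.sum_image (fun x _ y _ h => hinj h)]
    rw [Finset.sum_congr rfl (fun p _ => hval p)]
    have h0 : n (0 : V →ₗ[F] F) = S ^ 3 + 1 := by
      rw [hn]
      simp [hS]
    rw [h0, Fintype.sum_prod_type]
    rw [Fintype.sum_option]
    simp only [if_true, reduceCtorEq, if_false, Finset.sum_const, Finset.card_univ,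
      Fintype.card_fin, nsmul_eq_mul, hcu]
    push_cast
    ring
  rw [hsum3] at hlow
  have hS2 : 2 ≤ S := by rw [hS]; exact_mod_cast hs
  have hid : (S ^ 3 - S) ^ 2 + ((S ^ 2 - 1) * (S + 1) ^ 2 + (S ^ 3 + 1) * ((S ^ 2 - 1) * S ^ 2)) =
      (S + 1) ^ 2 * (S - 1) * S ^ 4 + (S ^ 2 - 1) * (S + 1) ^ 2 := by ring
  rw [hid] at hlow
  have hpos : 0 < (S ^ 2 - 1) * (S + 1) ^ 2 := by
    apply mul_pos
    · nlinarith
    · positivity
  linarith

end Pool.Agent.Y870.UN
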