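import Mathlib

set_option autoImplicit false
set_option linter.unusedSectionVars false

/-!
# Finite fields of square order: the involution, its trace and its norm
-/

namespace Pool.Agent.Y870.UN

open Polynomial

variable {F : Type} [Field F] [Finite F] {s : ℕ}

/-- The data of a finite field with `s ^ 2` elements: the automorphism `x ↦ x ^ s`. -/
structure Inv (F : Type) [Field F] (s : ℕ) where
  /-- the involution -/
  σ : F →+* F
  pow : ∀ x, σ x = x ^ s
  invol : ∀ x, σ (σ x) = x
  two_le : 2 ≤ s

theorem exists_inv (hF : Nat.card F = s ^ 2) : Nonempty (Inv F s) := by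
  have := Fintype.ofFinite F
  obtain ⟨p, hp⟩ := CharP.exists F
  obtain ⟨n, hprime, hn⟩ := FiniteField.card F p
  have hcard : s ^ 2 = p ^ (n : ℕ) := by rw [← hF, Nat.card_eq_fintype_card, hn]
  obtain ⟨m, -, hm⟩ := (Nat.dvd_prime_pow hprime).1 (hcard ▸ dvd_pow_self s two_ne_zero : s ∣ p ^ (n : ℕ))
  have : Fact p.Prime := ⟨hprime⟩
  have : ExpChar F p := ExpChar.prime hprime
  have hone : 1 < Nat.card F := Finite.one_lt_card
  have hs : 2 ≤ s := by
    by_contra h
    have h1 : s ≤ 1 := by omega
    have h2 : s ^ 2 ≤ 1 ^ 2 := Nat.pow_le_pow_left h1 2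
    rw [hF] at hone
    omega
  refine ⟨⟨iterateFrobenius F p m, ?_, ?_, hs⟩⟩
  · intro x
    rw [iterateFrobenius_def, ← hm]
  · intro x
    rw [iterateFrobenius_def, iterateFrobenius_def, ← pow_mul, ← hm, ← sq, ← hF,
      Nat.card_eq_fintype_card, FiniteField.pow_card]

theorem ncard_le_natDegree (p : F[X]) (hp : p ≠ 0) (S : Set F) (hS : ∀ x ∈ S, p.eval x = 0) :
    S.ncard ≤ p.natDegree := by
  classical
  have h : S ⊆ (p.roots.toFinset : Set F) := fun x hx => by
    simp only [Finset.mem_coe, Multiset.mem_toFinset, mem_roots hp]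
    exact hS x hx
  calc S.ncard ≤ (p.roots.toFinset : Set F).ncard := Set.ncard_le_ncard h (Finset.finite_toSet _)
    _ = p.roots.toFinset.card := Set.ncard_coe_finset _
    _ ≤ Multiset.card p.roots := Multiset.toFinset_card_le _
    _ ≤ p.natDegree := p.card_roots'

variable (I : Inv F s)

/-- The trace as an additive homomorphism. -/
def tr : F →+ F where
  toFun z := z + I.σ z
  map_zero' := by simp
  map_add' x y := by rw [map_add]; ring

theorem tr_apply (z : F) : tr I z = z + I.σ z := rfl

include I in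
theorem fix_le : {t : F | I.σ t = t}.ncard ≤ s := by
  have hs := I.two_le
  have hd : (X ^ s - X : F[X]).natDegree = s := by
    rw [natDegree_sub_eq_left_of_natDegree_lt]
    · exact natDegree_X_pow s
    · rw [natDegree_X_pow, natDegree_X]; omega
  have h0 : (X ^ s - X : F[X]) ≠ 0 := by
    intro h
    rw [h, natDegree_zero] at hd
    omega
  have := ncard_le_natDegree (X ^ s - X : F[X]) h0 {t : F | I.σ t = t} (fun x hx => by
    have hx : I.σ x = x := hx
    rw [eval_sub, eval_pow, eval_X, ← I.pow x, hx, sub_self])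
  rwa [hd] at this

include I in
theorem ker_le : {t : F | I.σ t = - t}.ncard ≤ s := by
  have hs := I.two_le
  have hd : (X ^ s + X : F[X]).natDegree = s := by
    rw [natDegree_add_eq_left_of_natDegree_lt]
    · exact natDegree_X_pow s
    · rw [natDegree_X_pow, natDegree_X]; omega
  have h0 : (X ^ s + X : F[X]) ≠ 0 := by
    intro h
    rw [h, natDegree_zero] at hd
    omega
  have := ncard_le_natDegree (X ^ s + X : F[X]) h0 {t : F | I.σ t = - t} (fun x hx => by
    have hx : I.σ x = - x := hx
    rw [eval_add, eval_pow, eval_X, ← I.pow x, hx]; ring)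
  rwa [hd] at this

theorem card_tr (hF : Nat.card F = s ^ 2) :
    Nat.card (tr I).ker * Nat.card (tr I).range = s ^ 2 := by
  rw [← hF, ← AddSubgroup.index_ker, AddSubgroup.card_mul_index]

theorem range_sub : ((tr I).range : Set F) ⊆ {t : F | I.σ t = t} := by
  rintro _ ⟨z, rfl⟩
  change I.σ (z + I.σ z) = z + I.σ z
  rw [map_add, I.invol, add_comm]

theorem ker_eq : ((tr I).ker : Set F) = {t : F | I.σ t = - t} := by
  ext z
  simp only [SetLike.mem_coe, AddMonoidHom.mem_ker, tr_apply, Set.mem_ofPred_eq]
  constructor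
  · intro h; rw [eq_neg_iff_add_eq_zero, add_comm]; exact h
  · intro h; rw [h, add_neg_cancel]

theorem card_ker (hF : Nat.card F = s ^ 2) : Nat.card (tr I).ker = s := by
  have hs := I.two_le
  have h1 : Nat.card (tr I).ker ≤ s := by
    have : Nat.card (tr I).ker = ((tr I).ker : Set F).ncard := Nat.card_coe_set_eq _
    rw [this, ker_eq]
    exact ker_le I
  have h2 : Nat.card (tr I).range ≤ s := by
    have : Nat.card (tr I).range = ((tr I).range : Set F).ncard := Nat.card_coe_set_eq _
    rw [this]
    exact (Set.ncard_le_ncard (range_sub I) (Set.toFinite _)).trans (fix_le I)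
  have h3 := card_tr I hF
  by_contra hne
  have h4 : Nat.card (tr I).ker < s := lt_of_le_of_ne h1 hne
  have : Nat.card (tr I).ker * Nat.card (tr I).range < s * s := by
    calc Nat.card (tr I).ker * Nat.card (tr I).range ≤ Nat.card (tr I).ker * s :=
          Nat.mul_le_mul_left _ h2
      _ < s * s := Nat.mul_lt_mul_of_pos_right h4 (by omega)
  rw [h3] at this
  nlinarith

/-- The trace is onto the fixed field. -/
theorem tr_surj (hF : Nat.card F = s ^ 2) (t : F) (ht : I.σ t = t) : ∃ z, z + I.σ z = t := by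
  have hs := I.two_le
  have h1 := card_ker I hF
  have h3 := card_tr I hF
  rw [h1] at h3
  have h4 : Nat.card (tr I).range = s := by
    have : s * Nat.card (tr I).range = s * s := by rw [h3]; ring
    exact Nat.eq_of_mul_eq_mul_left (by omega) this
  have h5 : ((tr I).range : Set F) = {t : F | I.σ t = t} := by
    apply Set.eq_of_subset_of_ncard_le (range_sub I) _ (Set.toFinite _)
    have : Nat.card (tr I).range = ((tr I).range : Set F).ncard := Nat.card_coe_set_eq _
    rw [← this]
    exact (fix_le I).trans h4.ge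
  have h6 : t ∈ ((tr I).range : Set F) := by rw [h5]; exact ht
  obtain ⟨z, hz⟩ := h6
  exact ⟨z, hz⟩

include I in
/-- Some element is moved. -/
theorem exists_moved (hF : Nat.card F = s ^ 2) : ∃ l : F, I.σ l ≠ l := by
  by_contra h
  push Not at h
  have h1 : {t : F | I.σ t = t} = Set.univ := by
    ext t; simp [h t]
  have h2 := fix_le I
  rw [h1, Set.ncard_univ, hF] at h2
  have := I.two_le
  nlinarith

/-- The norm is onto the fixed field. -/
theorem norm_surj (hF : Nat.card F = s ^ 2) (t : F) (ht : I.σ t = t) : ∃ u, u * I.σ u = t := by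
  have hs := I.two_le
  by_cases h0 : t = 0
  · exact ⟨0, by rw [h0, zero_mul]⟩
  have := Fintype.ofFinite F
  obtain ⟨g, hg⟩ := IsCyclic.exists_generator (α := Fˣ)
  have hord : orderOf g = (s - 1) * (s + 1) := by
    rw [orderOf_eq_card_of_forall_mem_zpowers hg, Nat.card_units, hF]
    have : s ^ 2 = s * s := sq s
    rw [this]
    obtain ⟨r, rfl⟩ : ∃ r, s = r + 1 := ⟨s - 1, by omega⟩
    simp only [Nat.add_sub_cancel]
    have : (r + 1) * (r + 1) = r * (r + 1 + 1) + 1 := by ring
    omega
  obtain ⟨k, hk⟩ : Units.mk0 t h0 ∈ Submonoid.powers g := by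
    rw [mem_powers_iff_mem_zpowers]; exact hg _
  have hk' : g ^ k = Units.mk0 t h0 := hk
  have ht1 : (Units.mk0 t h0) ^ (s - 1) = 1 := by
    apply Units.ext
    rw [Units.val_pow_eq_pow_val, Units.val_mk0, Units.val_one]
    have h1 : t ^ s = t := by rw [← I.pow t, ht]
    have h2 : t ^ (s - 1) * t = 1 * t := by
      rw [← pow_succ, Nat.sub_add_cancel (by omega), h1, one_mul]
    exact mul_right_cancel₀ h0 h2
  rw [← hk', ← pow_mul] at ht1
  have hdvd := orderOf_dvd_of_pow_eq_one ht1
  rw [hord, mul_comm k] at hdvd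
  obtain ⟨j, hj⟩ := Nat.dvd_of_mul_dvd_mul_left (by omega) hdvd
  refine ⟨((g ^ j : Fˣ) : F), ?_⟩
  rw [I.pow, ← pow_succ']
  have : (g ^ j) ^ (s + 1) = Units.mk0 t h0 := by
    rw [← pow_mul, mul_comm j, ← hj, hk']
  have h2 := congrArg Units.val this
  rw [Units.val_pow_eq_pow_val, Units.val_mk0] at h2
  exact h2

end Pool.Agent.Y870.UN
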