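import Pool.Agent.Y870.UN.Field
import Pool.Agent.Helper236.Plane

set_option autoImplicit false
set_option linter.unusedSectionVars false

/-!
# The Hermitian unital of the projective plane over a field with `s ^ 2` elements

The points are `(0, 0, 1)` and `(1, y, z)` with `z + z ^ s + y ^ (s + 1) = 0`.
-/

namespace Pool.Agent.Y870.UN

open Pool.Agent.Helper236

variable {F : Type} [Field F] [Finite F] {s : ℕ} (I : Inv F s)

/-- The affine points of the unital. -/
def Z : Type := {p : F × F // p.2 + I.σ p.2 + p.1 * I.σ p.1 = 0}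

instance : Finite (Z I) := inferInstanceAs (Finite {p : F × F // p.2 + I.σ p.2 + p.1 * I.σ p.1 = 0})

/-- The points of the unital. -/
abbrev X : Type := Option (Z I)

/-- Coordinates. -/
def toV : X I → (Fin 3 → F)
  | none => ![0, 0, 1]
  | some p => ![1, p.1.1, p.1.2]

theorem ev_none (a b c : F) : ev3 a b c (toV I none) = c := by
  simp [ev3, toV]

theorem ev_some (a b c : F) (p : Z I) :
    ev3 a b c (toV I (some p)) = a + b * p.1.1 + c * p.1.2 := by
  simp [ev3, toV]

theorem card_Z (hF : Nat.card F = s ^ 2) : s ^ 3 ≤ Nat.card (Z I) := by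
  have h1 : ∀ y : F, ∃ z, z + I.σ z = - (y * I.σ y) := fun y => by
    apply tr_surj I hF
    rw [map_neg, map_mul, I.invol, mul_comm]
  choose z0 hz0 using h1
  let φ : F × (tr I).ker → Z I := fun q => ⟨(q.1, z0 q.1 + q.2.1), by
    have hk : q.2.1 + I.σ q.2.1 = 0 := q.2.2
    change z0 q.1 + q.2.1 + I.σ (z0 q.1 + q.2.1) + q.1 * I.σ q.1 = 0
    rw [map_add]
    linear_combination hz0 q.1 + hk⟩
  have hφ : Function.Injective φ := by
    rintro ⟨y, k⟩ ⟨y', k'⟩ h
    have h2 := congrArg Subtype.val h
    simp only [φ, Prod.mk.injEq] at h2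
    obtain ⟨rfl, h3⟩ := h2
    have : k = k' := Subtype.ext (add_left_cancel h3)
    rw [this]
  have h2 := Nat.card_le_card_of_injective φ hφ
  rw [Nat.card_prod, hF, card_ker I hF] at h2
  calc s ^ 3 = s ^ 2 * s := by ring
    _ ≤ _ := h2

theorem key {y z y' z' : F} (h1 : z + I.σ z + y * I.σ y = 0) (h2 : z' + I.σ z' + y' * I.σ y' = 0)
    (h3 : I.σ z + I.σ y * y' + z' = 0) : y = y' ∧ z = z' := by
  have h4 : z + y * I.σ y' + I.σ z' = 0 := by
    have := congrArg I.σ h3
    simpa only [map_add, map_mul, I.invol, map_zero] using this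
  have h5 : (y - y') * I.σ (y - y') = 0 := by
    rw [map_sub]
    linear_combination h1 + h2 - h3 - h4
  have h6 : y = y' := by
    rcases mul_eq_zero.1 h5 with h | h
    · exact sub_eq_zero.1 h
    · have : I.σ (y - y') = I.σ 0 := by rw [h, map_zero]
      exact sub_eq_zero.1 (I.σ.injective this)
  subst h6
  refine ⟨rfl, ?_⟩
  linear_combination h1 - h3

theorem tang (x : X I) : ∃ a b c : F, ev3 a b c (toV I x) = 0 ∧
    ∀ y : X I, y ≠ x → ev3 a b c (toV I y) ≠ 0 := by
  rcases x with _ | p
  · refine ⟨1, 0, 0, ev_none I _ _ _, ?_⟩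
    rintro (_ | q) hq
    · exact absurd rfl hq
    · rw [ev_some]; simp
  · refine ⟨I.σ p.1.2, I.σ p.1.1, 1, ?_, ?_⟩
    · rw [ev_some]
      linear_combination p.2
    · rintro (_ | q) hq h
      · rw [ev_none] at h
        exact one_ne_zero h
      · rw [ev_some] at h
        obtain ⟨e1, e2⟩ := key I p.2 q.2 (by linear_combination h)
        exact hq (congrArg some (Subtype.ext (Prod.ext e1.symm e2.symm)))

theorem ne_zero (x : X I) : toV I x ≠ 0 := by
  intro h
  rcases x with _ | p
  · have := congrFun h 2
    simp [toV] at this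
  · have := congrFun h 0
    simp [toV] at this

theorem simp_ne {x y : X I} (hxy : x ≠ y) (c : F) : c • toV I x ≠ toV I y := by
  intro h
  obtain ⟨a, b, d, h1, h2⟩ := tang I x
  apply h2 y (Ne.symm hxy)
  rw [← h]
  have : ev3 a b d (c • toV I x) = c * ev3 a b d (toV I x) := by
    simp only [ev3, Pi.smul_apply, smul_eq_mul]; ring
  rw [this, h1, mul_zero]

theorem block (hF : Nat.card F = s ^ 2) (a b c : F) : ∃ x : X I, ev3 a b c (toV I x) = 0 := by
  by_cases hc : c = 0
  · exact ⟨none, by rw [ev_none, hc]⟩
  set al : F := - a / c with hal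
  set be : F := - b / c with hbe
  obtain ⟨u, hu⟩ := norm_surj I hF (be * I.σ be - al - I.σ al) (by
    rw [map_sub, map_sub, map_mul, I.invol, I.invol]; ring)
  set y : F := u - I.σ be with hy
  have hσy : I.σ y = I.σ u - be := by rw [hy, map_sub, I.invol]
  refine ⟨some ⟨(y, al + be * y), ?_⟩, ?_⟩
  · change al + be * y + I.σ (al + be * y) + y * I.σ y = 0
    rw [map_add, map_mul, hσy, hy]
    linear_combination hu
  · rw [ev_some]
    change a + b * y + c * (al + be * y) = 0
    rw [hal, hbe]
    field_simp
    ring

theorem exists_ker (hF : Nat.card F = s ^ 2) : ∃ k : F, k ≠ 0 ∧ I.σ k = - k := by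
  have h1 := card_ker I hF
  have h2 := I.two_le
  have : 1 < Nat.card (tr I).ker := by omega
  rw [Finite.one_lt_card_iff_nontrivial] at this
  obtain ⟨⟨k, hk⟩, hk0⟩ := exists_ne (0 : (tr I).ker)
  refine ⟨k, fun h => hk0 (Subtype.ext h), ?_⟩
  have hk' : k + I.σ k = 0 := hk
  linear_combination hk'

theorem nomod (hF : Nat.card F = s ^ 2) (a b c : F) (hex : ∃ x : X I, ev3 a b c (toV I x) ≠ 0) :
    ∃ x y : X I, x ≠ y ∧ ev3 a b c (toV I x) ≠ 0 ∧ ev3 a b c (toV I y) ≠ 0 ∧
      ∀ (l : X I) (d : F),
        ev3 a b c (toV I y) • toV I x - ev3 a b c (toV I x) • toV I y ≠ d • toV I l := by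
  have hσ0 : ∀ x : F, I.σ x = 0 → x = 0 := fun x hx => I.σ.injective (by rw [hx, map_zero])
  have hnormfix : ∀ y : F, I.σ (- (y * I.σ y)) = - (y * I.σ y) := fun y => by
    rw [map_neg, map_mul, I.invol, mul_comm]
  by_cases hc : c = 0
  · by_cases hb : b = 0
    · -- the tangent at the point at infinity
      have ha : a ≠ 0 := by
        rintro rfl
        obtain ⟨x, hx⟩ := hex
        apply hx
        simp [ev3, hb, hc]
      obtain ⟨z, hz⟩ := tr_surj I hF (-1) (by rw [map_neg, map_one])
      have hP : (0 : F) + I.σ 0 + 0 * I.σ 0 = 0 := by simp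
      have hQ : z + I.σ z + 1 * I.σ 1 = 0 := by rw [map_one]; linear_combination hz
      refine ⟨some ⟨(0, 0), hP⟩, some ⟨(1, z), hQ⟩, ?_, ?_, ?_, ?_⟩
      · intro h
        have := congrArg Subtype.val (Option.some.inj h)
        simp at this
      · rw [ev_some, hb, hc]; simpa using ha
      · rw [ev_some, hb, hc]; simpa using ha
      · intro l d h
        rw [ev_some, ev_some, hb, hc] at h
        have h0 := congrFun h 0
        have h1 := congrFun h 1
        rcases l with _ | q
        · simp [toV] at h1
          exact ha h1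
        · simp [toV] at h0 h1
          rw [← h0] at h1
          simp at h1
          exact ha h1
    · -- a secant through the point at infinity
      obtain ⟨lam, hlam⟩ := exists_moved I hF
      obtain ⟨k, hk0, hk⟩ := exists_ker I hF
      have hl0 : lam ≠ 0 := by rintro rfl; exact hlam (map_zero _)
      have hl1 : lam - 1 ≠ 0 := by
        intro h
        rw [sub_eq_zero] at h
        rw [h] at hlam
        exact hlam (map_one _)
      set y0 : F := - a / b with hy0
      have hy0' : a + b * y0 = 0 := by rw [hy0]; field_simp; ring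
      obtain ⟨z1, hz1⟩ := tr_surj I hF _ (hnormfix (y0 + lam))
      obtain ⟨z2, hz2⟩ := tr_surj I hF _ (hnormfix (y0 + lam - 1))
      -- one of two choices of the second point works
      have hchoice : ∃ w, w + I.σ w = - ((y0 + lam - 1) * I.σ (y0 + lam - 1)) ∧
          (lam * w + (1 - lam) * z1) + I.σ (lam * w + (1 - lam) * z1) + y0 * I.σ y0 ≠ 0 := by
        by_cases h : (lam * z2 + (1 - lam) * z1) + I.σ (lam * z2 + (1 - lam) * z1) + y0 * I.σ y0 = 0
        · refine ⟨z2 + k, ?_, ?_⟩
          · rw [map_add, hk]; linear_combination hz2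
          · intro h'
            apply mul_ne_zero hk0 (sub_ne_zero.2 hlam)
            simp only [map_add, map_mul, map_sub, map_one, hk] at h h'
            linear_combination h - h'
        · exact ⟨z2, hz2, h⟩
      obtain ⟨w, hw, hne⟩ := hchoice
      have hP : z1 + I.σ z1 + (y0 + lam) * I.σ (y0 + lam) = 0 := by linear_combination hz1
      have hQ : w + I.σ w + (y0 + lam - 1) * I.σ (y0 + lam - 1) = 0 := by linear_combination hw
      have evP : ev3 a b c (toV I (some ⟨(y0 + lam, z1), hP⟩)) = b * lam := by
        rw [ev_some, hc]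
        change a + b * (y0 + lam) + 0 * z1 = b * lam
        linear_combination hy0'
      have evQ : ev3 a b c (toV I (some ⟨(y0 + lam - 1, w), hQ⟩)) = b * (lam - 1) := by
        rw [ev_some, hc]
        change a + b * (y0 + lam - 1) + 0 * w = b * (lam - 1)
        linear_combination hy0'
      refine ⟨some ⟨(y0 + lam, z1), hP⟩, some ⟨(y0 + lam - 1, w), hQ⟩, ?_, ?_, ?_, ?_⟩
      · intro h
        have h1 := congrArg Subtype.val (Option.some.inj h)
        have h2 : y0 + lam = y0 + lam - 1 := congrArg Prod.fst h1
        exact one_ne_zero (α := F) (by linear_combination h2)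
      · rw [evP]; exact mul_ne_zero hb hl0
      · rw [evQ]; exact mul_ne_zero hb hl1
      · intro l d h
        rw [evP, evQ] at h
        have h0 := congrFun h 0
        have h1 := congrFun h 1
        have h2 := congrFun h 2
        rcases l with _ | q
        · simp [toV] at h0
          apply hb
          linear_combination -h0
        · simp [toV] at h0 h1 h2
          have hd : d = - b := by linear_combination -h0
          have e1 : q.1.1 = y0 := by
            apply mul_left_cancel₀ hb
            rw [hd] at h1
            linear_combination h1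
          have e2 : q.1.2 = lam * w + (1 - lam) * z1 := by
            apply mul_left_cancel₀ hb
            rw [hd] at h2
            linear_combination h2
          apply hne
          rw [← e1, ← e2]
          exact q.2
  · -- lines not through the point at infinity
    set al : F := - a / c with hal
    set be : F := - b / c with hbe
    have hal' : a = - (c * al) := by rw [hal]; field_simp
    have hbe' : b = - (c * be) := by rw [hbe]; field_simp
    have hchoice : ∃ y, (al + be * y) + I.σ (al + be * y) + y * I.σ y ≠ 0 := by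
      by_contra hcon
      push Not at hcon
      have h1 := hcon (- I.σ be)
      have h2 := hcon (1 - I.σ be)
      simp only [map_add, map_mul, map_sub, map_neg, map_one, I.invol] at h1 h2
      exact one_ne_zero (α := F) (by linear_combination h2 - h1)
    obtain ⟨y, hy⟩ := hchoice
    obtain ⟨z, hz⟩ := tr_surj I hF _ (hnormfix y)
    have hQ : z + I.σ z + y * I.σ y = 0 := by linear_combination hz
    have evQ : ev3 a b c (toV I (some ⟨(y, z), hQ⟩)) = a + b * y + c * z := ev_some I a b c _
    refine ⟨none, some ⟨(y, z), hQ⟩, by simp, ?_, ?_, ?_⟩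
    · rw [ev_none]; exact hc
    · rw [evQ]
      intro h
      apply hy
      have : z = al + be * y := by
        apply mul_left_cancel₀ hc
        rw [hal', hbe'] at h
        linear_combination h
      rw [← this]
      exact hQ
    · intro l d h
      rw [evQ, ev_none] at h
      have h0 := congrFun h 0
      have h1 := congrFun h 1
      have h2 := congrFun h 2
      rcases l with _ | q
      · simp [toV] at h0
        exact hc h0
      · simp [toV] at h0 h1 h2
        have e1 : q.1.1 = y := by
          apply mul_left_cancel₀ hc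
          rw [← h0] at h1
          linear_combination h1
        have e2 : q.1.2 = al + be * y := by
          apply mul_left_cancel₀ hc
          rw [← h0, hal', hbe'] at h2
          linear_combination h2
        have hq : q.1.2 + I.σ q.1.2 + q.1.1 * I.σ q.1.1 = 0 := q.2
        rw [e2, e1] at hq
        exact hy hq

theorem indep (hF : Nat.card F = s ^ 2) :
    ∃ x y l : X I, LinearIndependent F ![toV I x, toV I y, toV I l] := by
  obtain ⟨z, hz⟩ := tr_surj I hF (-1) (by rw [map_neg, map_one])
  have hP : (0 : F) + I.σ 0 + 0 * I.σ 0 = 0 := by simp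
  have hQ : z + I.σ z + 1 * I.σ 1 = 0 := by rw [map_one]; linear_combination hz
  refine ⟨some ⟨(0, 0), hP⟩, some ⟨(1, z), hQ⟩, none, ?_⟩
  rw [Fintype.linearIndependent_iff]
  intro g hg
  rw [Fin.sum_univ_three] at hg
  have h0 := congrFun hg 0
  have h1 := congrFun hg 1
  have h2 := congrFun hg 2
  simp [toV] at h0 h1 h2
  rw [h1] at h0 h2
  intro i
  fin_cases i
  · simpa using h0
  · exact h1
  · simpa using h2

end Pool.Agent.Y870.UN
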