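import Pool.Agent.Y870.UN.Herm
import Pool.Agent.Y870.UN.Count
import Pool.Agent.Helper236.Size

set_option autoImplicit false
set_option linter.unusedSectionVars false

namespace Pool.Agent.Y870.UN

open Set Module Submodule Pool.Agent.Helper236 Pool.Agent.Helper236.Size

variable {F : Type} [Field F] [Finite F] {s : ℕ}

/-- A member of `M(1; s ^ 2)` of rank three has at most `s ^ 3` points. -/
theorem upper {α : Type} (hs : 2 ≤ s) (hF : Nat.card F = s ^ 2) {M : Matroid α} (hM : InM F 1 α M)
    (hr : rk M M.E = 3) : M.E.ncard ≤ s ^ 3 := by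
  by_contra hlt
  have hfin := hM.1.1
  obtain ⟨n, v, hv⟩ := hM.1.2.2
  have h : Rep F M v := hv
  have hft : Fintype M.E := M.ground_finite.fintype
  have hcard : Fintype.card (Fin (s ^ 3 + 1)) ≤ Fintype.card M.E := by
    rw [Fintype.card_fin, ← Nat.card_eq_fintype_card, Nat.card_coe_set_eq]
    omega
  obtain ⟨a⟩ := Function.Embedding.nonempty_of_card_le hcard
  set V := span F (v '' M.E) with hV
  have hVr : finrank F V = 3 := by
    rw [← hr, h.rk_eq Subset.rfl]
  let w : Fin (s ^ 3 + 1) → V := fun i => ⟨v (a i), subset_span (mem_image_of_mem v (a i).2)⟩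
  have hex : ∀ i : Fin (s ^ 3 + 1), ∃ f : (Fin n → F) →ₗ[F] (Fin 1 → F), f (v (a i)) = 0 ∧
      ∀ x ∈ M.E, x ≠ a i → f (v x) ≠ 0 := fun i => exists_tangent h hM (a i).2
  choose f hf0 hf using hex
  obtain ⟨g, hg⟩ := (critExp_le_iff h 1).1
    (critExp_le_of_inM hM Matroid.IsMinor.refl hM.1.2.1)
  have hzero : ∀ y : Fin 1 → F, y 0 = 0 → y = 0 := by
    intro y hy
    ext i
    rw [Subsingleton.elim i 0]
    exact hy
  refine no_many hs hF hVr w (fun i => ((LinearMap.proj 0).comp (f i)).comp V.subtype)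
    (((LinearMap.proj 0).comp g).comp V.subtype) ?_ ?_ ?_
  · intro i
    change f i (v (a i)) 0 = 0
    rw [hf0]
    rfl
  · intro i j hij h0
    refine hf i (a j) (a j).2 ?_ (hzero _ h0)
    intro heq
    exact hij (a.injective (Subtype.ext heq)).symm
  · intro j h0
    exact hg (a j) (a j).2 (hzero _ h0)

theorem inL_card_le {α : Type} {M : Matroid α} (hM : InL F M) :
    M.E.ncard ≤ Nat.card F ^ rk M M.E := card_le hM

section Unital

variable (I : Inv F s)

/-- The number of points of the unital. -/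
noncomputable def num : ℕ := Nat.card (X I)

/-- The points of the unital, numbered. -/
noncomputable def idx : Fin (num I) ≃ X I := (Finite.equivFin (X I)).symm

/-- The coordinates of the points of the unital. -/
noncomputable def pt (i : Fin (num I)) : Fin 3 → F := toV I (idx I i)

theorem num_ge (hF : Nat.card F = s ^ 2) : s ^ 3 + 1 ≤ num I := by
  have := card_Z I hF
  rw [num, Finite.card_option]
  omega

theorem simple : IsSimple (planeMat (pt I)) :=
  planeMat_simple (pt I) (fun i => ne_zero I _)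
    (fun i j hij c => simp_ne I (fun h => hij ((idx I).injective h)) c)

theorem not_modular (hF : Nat.card F = s ^ 2) :
    ¬ ∃ H, IsModularHyperplane (planeMat (pt I)) H := by
  apply planeMat_not_modular (pt I) (simple I)
  rintro a b c ⟨i, hi⟩
  obtain ⟨x, y, hxy, h1, h2, h3⟩ := nomod I hF a b c ⟨idx I i, hi⟩
  refine ⟨(idx I).symm x, (idx I).symm y, fun h => hxy ((idx I).symm.injective h), ?_, ?_, ?_⟩
  · rw [pt, Equiv.apply_symm_apply]; exact h1
  · rw [pt, Equiv.apply_symm_apply]; exact h2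
  · intro l d
    rw [pt, pt, Equiv.apply_symm_apply, Equiv.apply_symm_apply]
    exact h3 _ d

theorem rank (hF : Nat.card F = s ^ 2) : rk (planeMat (pt I)) (planeMat (pt I)).E = 3 := by
  obtain ⟨x, y, l, h⟩ := indep I hF
  refine planeMat_rank_eq (pt I) ⟨(idx I).symm x, (idx I).symm y, (idx I).symm l, ?_⟩
  simpa only [pt, Equiv.apply_symm_apply] using h

theorem critExp_gt (hF : Nat.card F = s ^ 2) :
    ((1 : ℕ) : ℕ∞) < critExp (planeMat (pt I)) (Nat.card F) := by
  have := planeMat_finite (pt I)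
  refine (lt_critExp_iff (planeMat_rep (pt I)) 1).2 (planeMat_block (pt I) ?_)
  intro a b c
  obtain ⟨x, hx⟩ := block I hF a b c
  exact ⟨(idx I).symm x, by rw [pt, Equiv.apply_symm_apply]; exact hx⟩

theorem minor_le' {N : Matroid (Fin (num I))} (hN : N.IsMinor (planeMat (pt I)))
    (hne : N ≠ planeMat (pt I))
    (hl : ∀ e ∈ N.E, N.IsNonloop e) : critExp N (Nat.card F) ≤ (1 : ℕ) := by
  have := planeMat_finite (pt I)
  refine minor_le (planeMat_rep (pt I)) (simple I) (fun G hG hGne => rank_three_flats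
    (planeMat_rep (pt I)) (simple I) (planeMat_rank (pt I)) (planeMat_tangent (pt I) ?_) G hG hGne)
    hN hne hl
  intro i
  obtain ⟨a, b, c, h1, h2⟩ := tang I (idx I i)
  exact ⟨a, b, c, h1, fun j hj => h2 _ (fun h => hj ((idx I).injective h))⟩

theorem unital_inL : InL F (planeMat (pt I)) :=
  ⟨planeMat_finite _, simple I, ⟨3, _, planeMat_rep _⟩⟩

/-- The Hermitian unital is a tangential `1`-block. -/
theorem unital_tangential (hF : Nat.card F = s ^ 2) :
    IsTangentialBlock F 1 (planeMat (pt I)) :=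
  ⟨unital_inL I, critExp_gt I hF, fun _ hN hne hs => minor_le' I hN hne (isSimple_nonloop hs)⟩

theorem not_supersolvable (hF : Nat.card F = s ^ 2) : ¬ IsSupersolvable (planeMat (pt I)) := by
  rintro ⟨G, hG, -⟩
  have hr := rank I hF
  obtain ⟨h1, h2⟩ := hG 2 (by omega)
  exact not_modular I hF ⟨G 2, h1, by omega⟩

theorem unital_inExS (hF : Nat.card F = s ^ 2) : InExS F 1 _ (planeMat (pt I)) := by
  refine ⟨unital_inL I, ?_⟩
  rintro N hN ⟨ht, hss⟩
  by_cases hne : N = planeMat (pt I)
  · subst hne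
    exact not_supersolvable I hF hss
  · exact absurd (minor_le' I hN hne (isSimple_nonloop ht.1.2.1)) (not_le.2 ht.2.1)

end Unital

theorem exists_large (hF : Nat.card F = s ^ 2) : ∃ (α : Type) (M : Matroid α),
    IsTangentialBlock F 1 M ∧ ¬ IsSupersolvable M ∧ InExS F 1 α M ∧ rk M M.E = 3 ∧
      s ^ 3 + 1 ≤ M.E.ncard := by
  obtain ⟨I⟩ := exists_inv hF
  refine ⟨Fin (num I), planeMat (pt I), unital_tangential I hF, not_supersolvable I hF,
    unital_inExS I hF, rank I hF, ?_⟩
  rw [planeMat_E, Set.ncard_univ, Nat.card_fin]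
  exact num_ge I hF

theorem main (hF : Nat.card F = s ^ 2) :
    sizeFn (InM F 1) 3 ≤ s ^ 3 ∧ s ^ 3 + 1 ≤ sizeFn (InExS F 1) 3 := by
  obtain ⟨I⟩ := exists_inv hF
  constructor
  · rw [sizeFn]
    rcases Set.eq_empty_or_nonempty {m : ℕ | ∃ (α : Type) (M : Matroid α), InM F 1 α M ∧
      rk M M.E = 3 ∧ M.E.ncard = m} with h | h
    · rw [h, csSup_empty]
      exact bot_le
    · refine csSup_le h ?_
      rintro m ⟨α, M, hM, hr, rfl⟩
      exact upper I.two_le hF hM hr
  · refine (num_ge I hF).trans ?_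
    rw [sizeFn]
    refine le_csSup ⟨Nat.card F ^ 3, ?_⟩ ⟨Fin (num I), planeMat (pt I), unital_inExS I hF,
      rank I hF, ?_⟩
    · rintro m ⟨α, M, hM, hr, rfl⟩
      have := card_le hM.1
      rwa [hr] at this
    · rw [planeMat_E, Set.ncard_univ, Nat.card_fin]

end Pool.Agent.Y870.UN
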